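import Pool.Agent.H86.DB.Targets

/-!
# Splitting off the component of an ideal (row SPL)
-/

open Module

namespace Pool.Agent.H49.DB

open Pool.Agent.H86.DB Pool.Agent.H12.Defect Pool.Agent.H15.Defect Pool.Agent.H15.CX

universe u

/-- An idempotent cuts a finite algebra in two. -/
theorem finrank_split (k : Type u) [Field k] (A : Type u) [CommRing A] [Algebra k A]
    [Module.Finite k A] (e : A) (he : IsIdempotentElem e) :
    finrank k A = finrank k (A ⧸ Ideal.span {e}) + finrank k (A ⧸ Ideal.span {1 - e}) := by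
  have h1 : e + (1 - e) = 1 := by ring
  have h2 : e * (1 - e) = 0 := by rw [mul_sub, mul_one, he.eq, sub_self]
  rw [LinearEquiv.finrank_eq
    (AlgEquiv.prodQuotientOfIsIdempotentElem k he he.one_sub h1 h2).toLinearEquiv,
    Module.finrank_prod]

/-- A quotient of a quotient. -/
theorem finrank_sup (k : Type u) [Field k] (A : Type u) [CommRing A] [Algebra k A]
    (Q : Ideal A) (e : A) :
    finrank k ((A ⧸ Q) ⧸ Ideal.span {Ideal.Quotient.mk Q e}) =
      finrank k (A ⧸ (Ideal.span {e} ⊔ Q)) := by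
  have h := LinearEquiv.finrank_eq
    (DoubleQuot.quotQuotEquivQuotSupₐ k Q (Ideal.span {e})).toLinearEquiv
  rw [sup_comm, ← h, Ideal.map_span, Set.image_singleton]
  rfl

theorem pf_SPL : T_SPL.{u} := by
  intro k _ A _ _ J hA
  have hf : Module.Finite k A := IsSmoothable.finite hA
  have hart : IsArtinianRing A := IsArtinianRing.of_finite k A
  have hnoe : IsNoetherianRing A := IsNoetherianRing.of_finite k A
  obtain ⟨M₀, hM₀⟩ := IsArtinian.monotone_stabilizes
    (⟨fun n => OrderDual.toDual (J ^ n), fun a b hab => Ideal.pow_le_pow_right hab⟩ :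
      ℕ →o (Submodule A A)ᵒᵈ)
  have hst : ∀ M, M₀ ≤ M → J ^ M₀ = J ^ M := fun M hM => hM₀ M hM
  refine ⟨M₀, fun M hM => ?_⟩
  have hid : IsIdempotentElem (J ^ M) := by
    show J ^ M * J ^ M = J ^ M
    rw [← pow_add, ← hst M hM, ← hst (M + M) (by omega)]
  obtain ⟨e, he, hJ⟩ := (Ideal.isIdempotentElem_iff_of_fg (J ^ M)
    (IsNoetherian.noetherian _)).mp hid
  rw [hJ]
  have h1 : e + (1 - e) = 1 := by ring
  have h2 : e * (1 - e) = 0 := by rw [mul_sub, mul_one, he.eq, sub_self]
  refine ⟨isSmoothable_fst (IsSmoothable.of_equiv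
    (AlgEquiv.prodQuotientOfIsIdempotentElem k he he.one_sub h1 h2) hA),
    Ideal.span {1 - e}, finrank_split k A e he, fun Q => ?_⟩
  have he' : IsIdempotentElem (Ideal.Quotient.mk Q e) := by
    show Ideal.Quotient.mk Q e * Ideal.Quotient.mk Q e = Ideal.Quotient.mk Q e
    rw [← map_mul, he.eq]
  have h3 := finrank_split k (A ⧸ Q) (Ideal.Quotient.mk Q e) he'
  rw [h3, finrank_sup, ← finrank_sup k A Q (1 - e), map_sub, map_one]

end Pool.Agent.H49.DB
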